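import Pool.Agent.Helper486.TP.Final

/-!
# The Riesz measure of the lower envelope of δ-subharmonic functions

For every `n ≥ 1`, every domain `Ω ⊆ ℝⁿ`, every `m ≥ 2` and all δ-subharmonic functions
`w₁, …, w_m` in `Ω`, the Riesz measures satisfy `μ[⋀ⱼ wⱼ] ≥ ⋀_{j<k} μ[wⱼ ∧ w_k]`.
-/

namespace Pool.Agent.Results.MP_730047_an.RieszEnvelope

open Pool.Agent.Helper486.TP

/-- Let `n ≥ 1`, let `Ω ⊆ ℝⁿ` be open and connected (possibly empty), let `m ≥ 2` and let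
`w₁, …, w_m` be δ-subharmonic in `Ω`. Then the lower envelope `⋀ⱼ wⱼ` and all `wⱼ ∧ w_k` have Riesz
measures (with the normalising constant `c > 0`), the Riesz measures of the `wⱼ ∧ w_k`, `j < k`, have
a greatest lower bound in the order of signed Radon measures on `Ω`, and this greatest lower bound is
at most the Riesz measure of `⋀ⱼ wⱼ`. -/
theorem result (n : ℕ) (hn : 1 ≤ n) (Ω : Set (E n)) (hΩ : IsOpen Ω) (hΩc : IsPreconnected Ω)
    (m : ℕ) (hm : 2 ≤ m) (w : Fin m → E n → EReal) (hw : ∀ j, DeltaSubharmonic Ω (w j))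
    (c : ℝ) (hc : 0 < c) :
    (∃ μ, IsRiesz c Ω (fun x => ⨅ j, w j x) μ) ∧
    (∀ j k, ∃ ρ, IsRiesz c Ω (fun x => min (w j x) (w k x)) ρ) ∧
    ∀ (μ : SignedRadon Ω) (ρ : Fin m → Fin m → SignedRadon Ω),
      IsRiesz c Ω (fun x => ⨅ j, w j x) μ →
      (∀ j k, j < k → IsRiesz c Ω (fun x => min (w j x) (w k x)) (ρ j k)) →
      (∃ I, IsGLB {κ | ∃ j k, j < k ∧ κ = ρ j k} I) ∧
      ∀ I, IsGLB {κ | ∃ j k, j < k ∧ κ = ρ j k} I → I ≤ μ :=
  riesz_envelope hn hΩ hΩc hm w hw hc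

end Pool.Agent.Results.MP_730047_an.RieszEnvelope
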